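import Pool.Agent.K34RT.Final
import Pool.Agent.K34RT.CORE
import Pool.Agent.K34RT.GEO
import Pool.Agent.K34RT.SIDE
import Pool.Agent.K34RT.LEVEL
import Pool.Agent.K34RT.CHAIN
import Pool.Agent.K34RT.ZERO
import Pool.Agent.K34RT.F1
import Pool.Agent.K34RT.F2

/-!
MP_27fa52_an, Q1 is disproved.

The weight is `φ = exp p`, where `p` is a covering cost: `p t` is the least total price of covering
a length `t` by pieces of lengths `T 1 < T 2 < …` at the prices `s n * T n`, `s n = 2^{-n} / 4`, and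
by small pieces at the price `1/4` per unit of length.  The function is
`f = f₀ + Σ κ_n b_n(· - T n)` with `b_n(t) = c_n⁻¹ exp(-t / c_n)`, `|κ_n| = 2^{-n} exp(-s n * T n)`,
`c_n` proportional to `|κ_n|`, and `g` is the limit of finite sums `g_n` of exponentials
`exp(-i w τ)` over zeros `w` of the transforms `F_n` of the partial sums of `f`, with
`s (n+1) < Im w < s n`.  In the step each exponential `exp(-i w τ)` is replaced by the normalised
integral of `F_n P exp(-i z τ) / ((z - w) F_{n+1})` over a thin tilted rectangle which leads from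
`w` down and to the right across the line `Im z = s (n+1)`.
-/

set_option autoImplicit false

namespace Pool.Agent.Results.MP_27fa52_an.QOneDisproved

open MeasureTheory Set Filter Topology

/-- A weight with `α_+ = α_- = 0`: measurable, `≥ 1`, submultiplicative on `ℝ`,
`log φ(t) / t → 0` as `t → ±∞`. -/
def IsWeight (φ : ℝ → ℝ) : Prop :=
  Measurable φ ∧ (∀ t, 1 ≤ φ t) ∧ (∀ t τ, φ (t + τ) ≤ φ t * φ τ) ∧
  Tendsto (fun t => Real.log (φ t) / t) atTop (𝓝 0) ∧
  Tendsto (fun t => Real.log (φ t) / t) atBot (𝓝 0)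

/-- `f ∈ L^1_φ(ℝ_+)`: `f` is measurable, vanishes on `(-∞, 0)` and `∫_0^∞ |f| φ < ∞`. -/
def InL1 (φ : ℝ → ℝ) (f : ℝ → ℂ) : Prop :=
  AEStronglyMeasurable f volume ∧ (∀ t, t < 0 → f t = 0) ∧
  IntegrableOn (fun t => ‖f t‖ * φ t) (Set.Ioi 0)

/-- `g ∈ L^∞_φ(ℝ_+)`: `g` is measurable on `(0, ∞)` and `g / φ` is essentially bounded there. -/
def InLinf (φ : ℝ → ℝ) (g : ℝ → ℂ) : Prop :=
  AEStronglyMeasurable g (volume.restrict (Set.Ioi 0)) ∧
  ∃ K : ℝ, ∀ᵐ t ∂(volume.restrict (Set.Ioi (0:ℝ))), ‖g t‖ ≤ K * φ t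

/-- The transform `∫_0^∞ f(t) e^{-itz} dt`. -/
noncomputable def hat (f : ℝ → ℂ) (z : ℂ) : ℂ :=
  ∫ t in Set.Ioi (0:ℝ), f t * Complex.exp (-(Complex.I * (t:ℂ) * z))

/-- The two conditions on the transform of `f`: it has no zero in `Im z ≤ 0` and
`limsup_{y → -∞} log |hat f (iy)| / |y| = 0` (a limsup of extended real numbers). -/
def TransformConditions (f : ℝ → ℂ) : Prop :=
  (∀ z : ℂ, z.im ≤ 0 → hat f z ≠ 0) ∧
  Filter.limsup (fun y : ℝ => ((Real.log ‖hat f (y * Complex.I)‖ / |y| : ℝ) : EReal)) atBot = 0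

/-- Completeness of the right translates of `f` in the form of Q1: the only `g ∈ L^∞_φ(ℝ_+)` with
`∫_0^∞ f(t) g(t+τ) dt = 0` for all `τ > 0` is `g = 0` a.e. on `(0, ∞)`. -/
def TranslatesComplete (φ : ℝ → ℝ) (f : ℝ → ℂ) : Prop :=
  ∀ g : ℝ → ℂ, InLinf φ g →
  (∀ τ : ℝ, 0 < τ → ∫ t in Set.Ioi (0:ℝ), f t * g (t + τ) = 0) →
  ∀ᵐ t ∂(volume.restrict (Set.Ioi (0:ℝ))), g t = 0

/-- **Q1 is false**: there are a (nondecreasing) weight `φ` with `α_+ = α_- = 0` and a function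
`f ∈ L^1_φ(ℝ_+)` which satisfies both conditions on the transform, such that some
`g ∈ L^∞_φ(ℝ_+)` that is not a.e. zero has `∫_0^∞ f(t) g(t+τ) dt = 0` for all `τ > 0`. -/
theorem result : ∃ (φ : ℝ → ℝ) (f : ℝ → ℂ), Monotone φ ∧ IsWeight φ ∧ InL1 φ f ∧
    TransformConditions f ∧ ¬ TranslatesComplete φ f := by
  have hcore : K34RT.S_CORE := K34RT.rt_core K34RT.rt_zero
  have hlevel : K34RT.S_LEVEL := K34RT.rt_level K34RT.rt_geo K34RT.rt_side hcore
  obtain ⟨φ, f, g, h1, h2, h3, h4, h5, h6, h7⟩ :=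
    K34RT.rt_final (K34RT.rt_chain hlevel) K34RT.rt_f1 K34RT.rt_f2
  exact ⟨φ, f, h1, h2, h3, h4, fun h => h7 (h g h5 h6)⟩

end Pool.Agent.Results.MP_27fa52_an.QOneDisproved
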